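import Pool.Agent.Helper74.UB.Goals5

/-!
# The average degree of the gadget graph
-/

namespace Pool.Agent.Helper72.UB

open Finset Equiv Helper28.VF Pool.Agent.Helper74.UB
open scoped Classical

section
variable {V D E F : Type} [Fintype V] [Fintype D] [Fintype E] [Fintype F]

/-- The candidates for the edges of the gadget graph. -/
noncomputable def cand (L : Lay V) (M : PM D V E F) :
    (V ⊕ {p : V × V // L.up p.1 p.2}) ⊕ ({d : D // T4 M d} ⊕ {d : D // T4 M d}) →
      Sym2 (GV M)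
  | Sum.inl (Sum.inl v) => s(Sum.inl (Sum.inl v), Sum.inl (Sum.inl (L.e v)))
  | Sum.inl (Sum.inr p) => s(Sum.inl (Sum.inl p.1.1), Sum.inl (Sum.inl p.1.2))
  | Sum.inr (Sum.inl d) => s(Sum.inr d, Sum.inl (Sum.inl (M.vt d.1)))
  | Sum.inr (Sum.inr d) => s(Sum.inr d, Sum.inl (Sum.inr ⟨M.fc d.1, d.1, rfl, d.2⟩))

theorem grel_cand (L : Lay V) (M : PM D V E F) (had : ∀ u v, Ad M u v ↔ L.adj u v)
    (a b : GV M) (h : grel M a b) : s(a, b) ∈ Set.range (cand L M) := by
  rcases a with (u | q) | d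
  · rcases b with (v | q) | d
    · have h' : Ad M u v := h
      rw [had] at h'
      rcases h' with h' | h' | h' | h'
      · exact ⟨Sum.inl (Sum.inl u), by rw [h']; rfl⟩
      · refine ⟨Sum.inl (Sum.inl v), ?_⟩
        rw [h', Sym2.eq_swap]
        rfl
      · exact ⟨Sum.inl (Sum.inr ⟨(u, v), h'⟩), rfl⟩
      · refine ⟨Sum.inl (Sum.inr ⟨(v, u), h'⟩), ?_⟩
        rw [Sym2.eq_swap]
        rfl
    · exact h.elim
    · exact h.elim
  · rcases b with (v | q') | d
    · exact h.elim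
    · exact h.elim
    · exact h.elim
  · rcases b with (v | q) | d'
    · have h' : M.vt d.1 = v := h
      exact ⟨Sum.inr (Sum.inl d), by rw [← h']; rfl⟩
    · have h' : M.fc d.1 = q.1 := h
      refine ⟨Sum.inr (Sum.inr d), ?_⟩
      have : q = ⟨M.fc d.1, d.1, rfl, d.2⟩ := Subtype.ext h'.symm
      rw [this]
      rfl
    · exact h.elim

theorem edge_cand (L : Lay V) (M : PM D V E F) (had : ∀ u v, Ad M u v ↔ L.adj u v) :
    (GS M).edgeSet ⊆ Set.range (cand L M) := by
  intro e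
  refine Sym2.ind ?_ e
  intro a b hab
  rw [SimpleGraph.mem_edgeSet, GS, SimpleGraph.fromRel_adj] at hab
  rcases hab.2 with h | h
  · exact grel_cand L M had a b h
  · rw [Sym2.eq_swap]
    exact grel_cand L M had b a h

theorem edge_card (L : Lay V) (M : PM D V E F) (had : ∀ u v, Ad M u v ↔ L.adj u v) :
    (GS M).edgeSet.ncard ≤ Nat.card V + Nat.card {p : V × V // L.up p.1 p.2} +
      2 * Nat.card {d : D // T4 M d} := by
  have h1 : (GS M).edgeSet.ncard ≤ (Set.range (cand L M)).ncard :=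
    Set.ncard_le_ncard (edge_cand L M had) (Set.finite_range _)
  have h2 : (Set.range (cand L M)).ncard ≤
      Nat.card ((V ⊕ {p : V × V // L.up p.1 p.2}) ⊕ ({d : D // T4 M d} ⊕ {d : D // T4 M d})) := by
    rw [← Set.image_univ, ← Set.ncard_univ]
    exact Set.ncard_image_le Set.finite_univ
  rw [Nat.card_sum, Nat.card_sum, Nat.card_sum] at h2
  omega

end

theorem avg (h1 : StmtCnt) (h2 : StmtLayAd) : StmtAvg := by
  intro K h V D E F _ _ _ _ L f M dE dW dU dN hH hL
  obtain ⟨c1, c2, c3, c4, c5⟩ := h1 K h V D E F L f M dE dW dU dN hH hL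
  obtain ⟨had, -, -⟩ := h2 V D E F L M dE dW dU dN hH.ax hL
  have he := edge_card L M had
  have hg : Fintype.card (GV M) = Nat.card V + Nat.card {q : F // IsSq M q} +
      Nat.card {d : D // T4 M d} := by
    rw [← Nat.card_eq_fintype_card, Nat.card_sum, Nat.card_sum]
  have n1 : Nat.card V = Fintype.card V := Nat.card_eq_fintype_card
  have n2 : Nat.card {p : V × V // L.up p.1 p.2} =
      (univ.filter fun p : V × V => L.up p.1 p.2).card := by
    rw [Nat.card_eq_fintype_card, Fintype.card_subtype]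
  have n3 : Nat.card {q : F // IsSq M q} = Fintype.card {q : F // IsSq M q} :=
    Nat.card_eq_fintype_card
  have n4 : Nat.card {d : D // T4 M d} = Fintype.card {d : D // T4 M d} :=
    Nat.card_eq_fintype_card
  rw [← n1] at c1 c2
  rw [← n2] at c3
  rw [← n3] at c4
  rw [← n4] at c5
  have N0 : 0 < 3 * 2 ^ K := by positivity
  clear hL hH had n1 n2 n3 n4 h1 h2 dE dW dU dN f
  generalize 3 * 2 ^ K = N at *
  generalize Nat.card V = nv at *
  generalize Nat.card {p : V × V // L.up p.1 p.2} = nu at *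
  generalize Nat.card {q : F // IsSq M q} = nq at *
  generalize Nat.card {d : D // T4 M d} = nd at *
  generalize (GS M).edgeSet.ncard = ne at *
  refine ⟨?_, ?_⟩
  · rw [hg]
    have H0 : (0 : ℝ) < (h : ℝ) + 1 := by positivity
    have NR : (0 : ℝ) < (N : ℝ) := by exact_mod_cast N0
    have e1 : 2 * (ne : ℝ) ≤ 13 * ((N : ℝ) * (h + 1)) + 16 * N := by
      have : 2 * ne ≤ 13 * (N * (h + 1)) + 16 * N := by omega
      exact_mod_cast this
    have e2 : 7 / 2 * ((N : ℝ) * (h + 1)) ≤ ((nv + nq + nd : ℕ) : ℝ) := by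
      have : 7 * (N * (h + 1)) ≤ 2 * (nv + nq + nd) := by omega
      have h' : (7 : ℝ) * ((N : ℝ) * (h + 1)) ≤ 2 * ((nv + nq + nd : ℕ) : ℝ) := by
        exact_mod_cast this
      linarith
    have hp : 0 < 7 / 2 * ((N : ℝ) * (h + 1)) := by positivity
    have hp2 : 0 < ((nv + nq + nd : ℕ) : ℝ) := lt_of_lt_of_le hp e2
    rw [div_le_iff₀ hp2]
    have e3 : (26 / 7 + 32 / (7 * ((h : ℝ) + 1))) * (7 / 2 * ((N : ℝ) * (h + 1))) =
        13 * ((N : ℝ) * (h + 1)) + 16 * N := by
      field_simp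
      ring
    have e4 : 0 ≤ 26 / 7 + 32 / (7 * ((h : ℝ) + 1)) := by positivity
    calc 2 * (ne : ℝ) ≤ 13 * ((N : ℝ) * (h + 1)) + 16 * N := e1
      _ = (26 / 7 + 32 / (7 * ((h : ℝ) + 1))) * (7 / 2 * ((N : ℝ) * (h + 1))) := e3.symm
      _ ≤ _ := mul_le_mul_of_nonneg_left e2 e4
  · rw [hg]
    omega

end Pool.Agent.Helper72.UB
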