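import Pool.Agent.Helper74.UB.Goals3

/-!
# Adjacency and common faces in the cone over a set of faces
-/

namespace Pool.Agent.Helper72.UB

open Finset Equiv Helper28.VF Pool.Agent.Helper74.UB
open scoped Classical

section
variable {D V E F : Type} [Fintype D] [Fintype V] [Fintype E] [Fintype F] (M : PM D V E F)

theorem fc_ph (d : D) : M.fc (ph M d) = M.fc d := by
  rw [M.fc_iff]
  refine Perm.SameCycle.symm ?_
  refine ⟨1, ?_⟩
  simp [ph]

theorem vt_ph (d : D) : M.vt (ph M d) = tg M d := by
  unfold ph tg
  rw [M.vt_iff]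
  refine Perm.SameCycle.symm ?_
  exact ⟨1, by simp⟩

theorem exists_ph (x : D) : ∃ d, ph M d = x :=
  ⟨M.α.symm (M.σ.symm x), by simp [ph]⟩

/-- A function that is invariant under `ph` is constant on the darts of a face. -/
theorem const_of_ph {β : Type} (g : D → β) (hg : ∀ d, g (ph M d) = g d) {x y : D}
    (h : M.fc x = M.fc y) : g x = g y := by
  rw [M.fc_iff] at h
  obtain ⟨n, hn⟩ := h.exists_nat_pow_eq
  rw [← hn]
  clear hn h
  induction n with
  | zero => simp
  | succ n ih =>
    rw [pow_succ', Perm.mul_apply, ih]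
    exact (hg _).symm

end

theorem conead : StmtConeAd := by
  intro D V E F E' F' _ _ _ _ _ _ M I M' hc
  have tl : ∀ d, tg M' (Sum.inl d) = Sum.inl (tg M d) := by
    intro d
    unfold tg
    rw [hc.al, hc.vl]
  have tf : ∀ d, tg M' (Sum.inr (d, false)) = Sum.inr ⟨M.fc d.1, d.2⟩ := by
    intro d
    unfold tg
    rw [hc.ar]
    exact hc.vtr d
  have tt : ∀ d, tg M' (Sum.inr (d, true)) = Sum.inl (M.vt d.1) := by
    intro d
    unfold tg
    rw [hc.ar]
    exact hc.vf d
  refine ⟨?_, ?_, ?_, ?_, ?_, ?_⟩
  · intro u v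
    constructor
    · rintro ⟨d, h1, h2⟩
      rcases d with d | ⟨d, b⟩
      · rw [hc.vl] at h1
        rw [tl] at h2
        exact ⟨d, Sum.inl_injective h1, Sum.inl_injective h2⟩
      · cases b
        · rw [tf] at h2
          exact absurd h2 (by simp)
        · rw [hc.vtr] at h1
          exact absurd h1 (by simp)
    · rintro ⟨d, h1, h2⟩
      refine ⟨Sum.inl d, ?_, ?_⟩
      · rw [hc.vl, h1]
      · rw [tl, h2]
  · intro q v
    have key1 : ∀ d', M'.vt d' = Sum.inr q → tg M' d' = Sum.inl v →
        ∃ d, M.fc d = q.1 ∧ M.vt d = v := by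
      intro d' h1 h2
      rcases d' with d | ⟨d, b⟩
      · rw [hc.vl] at h1
        exact absurd h1 (by simp)
      · cases b
        · rw [hc.vf] at h1
          exact absurd h1 (by simp)
        · rw [hc.vtr] at h1
          rw [tt] at h2
          refine ⟨d.1, ?_, Sum.inl_injective h2⟩
          have := Sum.inr_injective h1
          exact congrArg Subtype.val this
    have key2 : ∀ d', M'.vt d' = Sum.inl v → tg M' d' = Sum.inr q →
        ∃ d, M.fc d = q.1 ∧ M.vt d = v := by
      intro d' h1 h2
      rcases d' with d | ⟨d, b⟩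
      · rw [tl] at h2
        exact absurd h2 (by simp)
      · cases b
        · rw [hc.vf] at h1
          rw [tf] at h2
          refine ⟨d.1, ?_, Sum.inl_injective h1⟩
          have := Sum.inr_injective h2
          exact congrArg Subtype.val this
        · rw [hc.vtr] at h1
          exact absurd h1 (by simp)
    constructor
    · constructor
      · rintro ⟨d, h1, h2⟩
        exact key1 d h1 h2
      · rintro ⟨d, h1, h2⟩
        have hI : I (M.fc d) := by rw [h1]; exact q.2
        refine ⟨Sum.inr (⟨d, hI⟩, true), ?_, ?_⟩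
        · rw [hc.vtr]
          exact congrArg Sum.inr (Subtype.ext h1)
        · rw [tt]
          exact congrArg Sum.inl h2
    · constructor
      · rintro ⟨d, h1, h2⟩
        exact key2 d h1 h2
      · rintro ⟨d, h1, h2⟩
        have hI : I (M.fc d) := by rw [h1]; exact q.2
        refine ⟨Sum.inr (⟨d, hI⟩, false), ?_, ?_⟩
        · rw [hc.vf]
          exact congrArg Sum.inl h2
        · rw [tf]
          exact congrArg Sum.inr (Subtype.ext h1)
  · rintro q q' ⟨d, h1, h2⟩
    rcases d with d | ⟨d, b⟩
    · rw [hc.vl] at h1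
      exact absurd h1 (by simp)
    · cases b
      · rw [hc.vf] at h1
        exact absurd h1 (by simp)
      · rw [tt] at h2
        exact absurd h2 (by simp)
  · intro u v h
    obtain ⟨x, y, hxy, hx, hy⟩ := h
    let g : DC M I → F := fun z => Sum.elim (fun d => M.fc d) (fun p => M.fc p.1.1) z
    have hg : ∀ z, g (ph M' z) = g z := by
      intro z
      rcases z with d | ⟨d, b⟩
      · by_cases hI : I (M.fc d)
        · have a : I (M.fc (ph M d)) := by rw [fc_ph]; exact hI
          rw [hc.pi d hI a]
          exact fc_ph M d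
        · rw [hc.po d hI]
          exact fc_ph M d
      · cases b
        · obtain ⟨x0, hx0⟩ := d
          obtain ⟨d, hd⟩ := exists_ph M x0
          subst hd
          have b : I (M.fc d) := by rw [← fc_ph]; exact hx0
          rw [hc.pf d b hx0]
          exact (fc_ph M d).symm
        · rw [hc.pt]
          rfl
    have h1 : g x = g y := const_of_ph M' g hg hxy
    have h2 : ∀ z w, M'.vt z = Sum.inl w → ∃ d, M.vt d = w ∧ g z = M.fc d := by
      intro z w hz
      rcases z with d | ⟨d, b⟩
      · rw [hc.vl] at hz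
        exact ⟨d, Sum.inl_injective hz, rfl⟩
      · cases b
        · rw [hc.vf] at hz
          exact ⟨d.1, Sum.inl_injective hz, rfl⟩
        · rw [hc.vtr] at hz
          exact absurd hz (by simp)
    obtain ⟨d, hd1, hd2⟩ := h2 x u hx
    obtain ⟨e, he1, he2⟩ := h2 y v hy
    exact ⟨d, e, by rw [← hd2, ← he2, h1], hd1, he1⟩
  · intro d hI O
    constructor
    · rintro ⟨x, hx, hO⟩
      obtain ⟨e, rfl, he⟩ := (hc.fo d hI x).1 hx
      rw [hc.vl] at hO
      exact ⟨e, he, hO⟩
    · rintro ⟨e, he, hO⟩
      refine ⟨Sum.inl e, (hc.fo d hI _).2 ⟨e, rfl, he⟩, ?_⟩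
      rw [hc.vl]
      exact hO
  · intro d a O
    have a' : I (M.fc (ph M d)) := by rw [fc_ph]; exact a
    constructor
    · rintro ⟨x, hx, hO⟩
      rcases (hc.fi d a a' x).1 hx with rfl | rfl | rfl
      · rw [hc.vl] at hO
        exact Or.inl hO
      · rw [hc.vf] at hO
        refine Or.inr (Or.inl ?_)
        rw [← vt_ph]
        exact hO
      · rw [hc.vtr] at hO
        exact Or.inr (Or.inr hO)
    · rintro (hO | hO | hO)
      · refine ⟨Sum.inl d, rfl, ?_⟩
        rw [hc.vl]
        exact hO
      · refine ⟨Sum.inr (⟨ph M d, a'⟩, false), (hc.fi d a a' _).2 (Or.inr (Or.inl rfl)), ?_⟩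
        rw [hc.vf]
        rw [← vt_ph] at hO
        exact hO
      · refine ⟨Sum.inr (⟨d, a⟩, true), (hc.fi d a a' _).2 (Or.inr (Or.inr rfl)), ?_⟩
        rw [hc.vtr]
        exact hO

end Pool.Agent.Helper72.UB
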